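import Mathlib

set_option autoImplicit false

open scoped MatrixOrder ComplexOrder Matrix

namespace Pool.Agent.Work.MP_ebd556_mp

/-- The trace norm of a complex square matrix: the trace of the positive square root of `Xᴴ X`. -/
noncomputable def trNorm {d : ℕ} (X : Matrix (Fin d) (Fin d) ℂ) : ℝ :=
  (Matrix.trace (CFC.sqrt (Xᴴ * X))).re

/-- `L(A_1,...,A_n)`: trace of the positive square root of the sum of squares, minus the sum of
the traces. -/
noncomputable def Lval {n d : ℕ} (A : Fin n → Matrix (Fin d) (Fin d) ℂ) : ℝ :=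
  (Matrix.trace (CFC.sqrt (∑ j, A j ^ 2))).re - ∑ j, (Matrix.trace (A j)).re

/-- `R(A_1,...,A_n)`: sum over pairs `j < k` of the trace norm of `A_j - A_k` minus the trace of
`A_j + A_k`. -/
noncomputable def Rval {n d : ℕ} (A : Fin n → Matrix (Fin d) (Fin d) ℂ) : ℝ :=
  ∑ j, ∑ k ∈ Finset.univ.filter (fun k => j < k),
    (trNorm (A j - A k) - (Matrix.trace (A j + A k)).re)

end Pool.Agent.Work.MP_ebd556_mp
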