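import Pool.Agent.Work.MP_ebd556_mp.Main

set_option autoImplicit false
set_option linter.unusedSectionVars false

open scoped MatrixOrder ComplexOrder
open Matrix Finset

namespace Pool.Agent.Work.MP_ebd556_mp

lemma trNorm_symm {d : ℕ} (A B : Matrix (Fin d) (Fin d) ℂ) :
    trNorm (A - B) = trNorm (B - A) := by
  unfold trNorm
  have : A - B = - (B - A) := by abel
  rw [this, conjTranspose_neg, neg_mul_neg]

/-- twice the defect of a pair -/
noncomputable def q {n d : ℕ} (A : Fin n → Matrix (Fin d) (Fin d) ℂ) (i j : Fin n) : ℝ :=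
  tr (A i) + tr (A j) - trNorm (A i - A j)

lemma q_symm {n d : ℕ} (A : Fin n → Matrix (Fin d) (Fin d) ℂ) (i j : Fin n) :
    q A i j = q A j i := by
  unfold q; rw [trNorm_symm]; ring

lemma sum_q {n d : ℕ} (A : Fin n → Matrix (Fin d) (Fin d) ℂ) :
    ∑ i, ∑ j ∈ Finset.univ.erase i, q A i j = - (2 * Rval A) := by
  have h1 : ∀ i, ∑ j ∈ Finset.univ.erase i, q A i j
      = (∑ j, if i < j then q A i j else 0) + ∑ j, if j < i then q A i j else 0 := by
    intro i
    rw [← Finset.sum_add_distrib]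
    have : Finset.univ.erase i = Finset.univ.filter (fun j => j ≠ i) := by
      ext j; simp
    rw [this, Finset.sum_filter]
    refine Finset.sum_congr rfl fun j _ => ?_
    rcases lt_trichotomy i j with h | h | h
    · simp [h, h.ne', h.not_gt]
    · simp [h]
    · simp [h, h.ne, h.not_gt]
  have h2 : ∑ i, ∑ j, (if j < i then q A i j else 0) = ∑ i, ∑ j, if i < j then q A i j else 0 := by
    rw [Finset.sum_comm]
    refine Finset.sum_congr rfl fun i _ => Finset.sum_congr rfl fun j _ => ?_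
    rw [q_symm]
  simp only [h1]
  rw [Finset.sum_add_distrib, h2]
  have h3 : Rval A = - ∑ i, ∑ j, if i < j then q A i j else 0 := by
    unfold Rval
    rw [← Finset.sum_neg_distrib]
    refine Finset.sum_congr rfl fun i _ => ?_
    rw [← Finset.sum_neg_distrib, Finset.sum_filter]
    refine Finset.sum_congr rfl fun j _ => ?_
    split_ifs with h
    · unfold q tr; rw [Matrix.trace_add, Complex.add_re]; ring
    · simp
  rw [h3]; ring

theorem main {n d : ℕ} (A : Fin n → Matrix (Fin d) (Fin d) ℂ) (hA : ∀ j, (A j).PosSemidef) :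
    120 * Rval A ≤ Lval A := by
  have hA0 : ∀ i, 0 ≤ A i := fun i => (hA i).nonneg
  have hH : ∀ i, (A i).IsHermitian := fun i => (hA i).isHermitian
  set ev : Fin n → Fin d → ℝ := fun i => (hH i).eigenvalues with hev
  have hev0 : ∀ i j, 0 ≤ ev i j := fun i j => (hA i).eigenvalues_nonneg j
  obtain ⟨S, hS, hSev⟩ : ∃ S : ℝ, 0 < S ∧ ∀ i j, ev i j < 2 * S := by
    refine ⟨1 + ∑ i, ∑ j, ev i j, ?_, ?_⟩
    · have : 0 ≤ ∑ i, ∑ j, ev i j := Finset.sum_nonneg fun i _ => Finset.sum_nonneg fun j _ => hev0 i j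
      linarith
    · intro i j
      have h1 : ev i j ≤ ∑ j, ev i j :=
        Finset.single_le_sum (f := fun j => ev i j) (fun j _ => hev0 i j) (Finset.mem_univ j)
      have h2 : ∑ j, ev i j ≤ ∑ i, ∑ j, ev i j :=
        Finset.single_le_sum (f := fun i => ∑ j, ev i j)
          (fun i _ => Finset.sum_nonneg fun j _ => hev0 i j) (Finset.mem_univ i)
      have h3 := hev0 i j
      linarith
  obtain ⟨K, hK⟩ : ∃ K : ℕ, ∀ i j, 0 < ev i j → S / 2 ^ K ≤ ev i j := by
    have hev : ∀ᶠ K : ℕ in Filter.atTop, ∀ i j, 0 < ev i j → S / 2 ^ K ≤ ev i j := by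
      rw [Filter.eventually_all]
      intro i
      rw [Filter.eventually_all]
      intro j
      by_cases h : 0 < ev i j
      · have ht : Filter.Tendsto (fun K : ℕ => S / 2 ^ K) Filter.atTop (nhds 0) := by
          have := (tendsto_pow_atTop_nhds_zero_of_lt_one (r := (1/2 : ℝ)) (by norm_num)
            (by norm_num)).const_mul S
          simp only [mul_zero] at this
          refine this.congr fun k => ?_
          rw [one_div, inv_pow]; rfl
        filter_upwards [ht.eventually_lt_const h] with K hK _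
        exact hK.le
      · exact Filter.Eventually.of_forall fun K h' => absurd h' h
    exact hev.exists
  set P : Fin n → ℕ → Matrix (Fin d) (Fin d) ℂ := fun i k => fc (hH i) (ind S k) with hPdef
  have hP : ∀ i k, IsProj (P i k) := fun i k => proj_fc _ _ fun x => by
    unfold ind; split_ifs <;> simp
  have horth : ∀ i k l, k ≠ l → P i k * P i l = 0 := by
    intro i k l hkl
    simp only [hPdef]
    rw [fc_mul, ← fc_zero (hH i)]
    congr 1
    ext x
    exact ind_mul hS hkl x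
  have hP1 : ∀ i, ∑ k ∈ range (K + 1), P i k ≤ 1 := by
    intro i
    simp only [hPdef]
    rw [fc_sum, ← fc_one (hH i)]
    exact fc_le _ fun j => ind_sum_le_one hS _ _
  have hs0 : ∀ k : ℕ, 0 ≤ S / 2 ^ k := fun k => by positivity
  have hsum : ∀ i, ∑ k ∈ range (K + 1), (S / 2 ^ k) • P i k
      = fc (hH i) (fun x => ∑ k ∈ range (K + 1), S / 2 ^ k * ind S k x) := by
    intro i
    simp only [hPdef, fc_smul]
    rw [fc_sum]
  have hAl : ∀ i, ∑ k ∈ range (K + 1), (S / 2 ^ k) • P i k ≤ A i := by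
    intro i
    rw [hsum]
    conv_rhs => rw [← fc_id (hH i)]
    exact fc_le _ fun j => ind_sum_le hS _ (hev0 i j)
  have hAu : ∀ i, A i ≤ (2 : ℝ) • ∑ k ∈ range (K + 1), (S / 2 ^ k) • P i k := by
    intro i
    rw [hsum, fc_smul]
    conv_lhs => rw [← fc_id (hH i)]
    exact fc_le _ fun j => le_ind_sum hS K (hev0 i j) (hSev i j) (hK i j)
  obtain ⟨M, hM0, hM1, hM2⟩ := multi hP hs0 (K + 1)
  have hMi : ∀ i, 0 ≤ 1 - M i := by
    intro i
    refine sub_nonneg.2 (le_trans ?_ hM1)
    exact Finset.single_le_sum (f := M) (fun j _ => hM0 j) (Finset.mem_univ i)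
  -- step 1
  have h1 : ∀ i, tr (A i * (1 - M i)) ≤
      2 * ∑ k ∈ range (K + 1), S / 2 ^ k * (tr (P i k) - tr (P i k * M i)) := by
    intro i
    refine (tr_mul_mono (hAu i) (hMi i)).trans (le_of_eq ?_)
    rw [smul_mul_assoc, tr_smul, Finset.sum_mul, tr_sum]
    congr 1
    refine Finset.sum_congr rfl fun k _ => ?_
    rw [smul_mul_assoc, tr_smul, mul_sub, mul_one, tr_sub]
  have h2 : ∑ i, tr (A i * (1 - M i)) ≤ 2 * (15 * ∑ k ∈ range (K + 1), S / 2 ^ k *
          (tr ((∑ l ∈ range (k + 1), ∑ i, P i l) * (∑ l ∈ range (k + 1), ∑ i, P i l))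
            - tr (∑ l ∈ range (k + 1), ∑ i, P i l))) := by
    refine (Finset.sum_le_sum fun i _ => h1 i).trans ?_
    rw [← Finset.mul_sum]
    exact mul_le_mul_of_nonneg_left hM2 (by norm_num)
  have h3 : ∑ k ∈ range (K + 1), S / 2 ^ k *
          (tr ((∑ l ∈ range (k + 1), ∑ i, P i l) * (∑ l ∈ range (k + 1), ∑ i, P i l))
            - tr (∑ l ∈ range (k + 1), ∑ i, P i l))
      ≤ ∑ i, ∑ j ∈ Finset.univ.erase i, 2 * q A i j := by
    have e1 : ∑ k ∈ range (K + 1), S / 2 ^ k *
          (tr ((∑ l ∈ range (k + 1), ∑ i, P i l) * (∑ l ∈ range (k + 1), ∑ i, P i l))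
            - tr (∑ l ∈ range (k + 1), ∑ i, P i l))
        = ∑ i, ∑ j ∈ Finset.univ.erase i, ∑ k ∈ range (K + 1), S / 2 ^ k *
          (∑ l ∈ range (k + 1), ∑ l' ∈ range (k + 1), tr (P i l * P j l')) := by
      calc _ = ∑ k ∈ range (K + 1), ∑ i, ∑ j ∈ Finset.univ.erase i, S / 2 ^ k *
          (∑ l ∈ range (k + 1), ∑ l' ∈ range (k + 1), tr (P i l * P j l')) := by
            refine Finset.sum_congr rfl fun k _ => ?_
            rw [T_pairs hP horth, Finset.mul_sum]
            refine Finset.sum_congr rfl fun i _ => ?_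
            rw [Finset.mul_sum]
        _ = _ := by
            rw [Finset.sum_comm]
            refine Finset.sum_congr rfl fun i _ => ?_
            rw [Finset.sum_comm]
    rw [e1]
    refine Finset.sum_le_sum fun i _ => Finset.sum_le_sum fun j _ => ?_
    have hx : ∀ l l', 0 ≤ tr (P i l * P j l') := fun l l' =>
      tr_mul_nonneg (hP i l).nonneg (hP j l').nonneg
    have g := geom_sum_bound hx hS.le (K + 1)
    have gpos : 0 ≤ 2 * (S / 2 ^ (K + 1)) *
        (∑ l ∈ range (K + 1), ∑ l' ∈ range (K + 1), tr (P i l * P j l')) :=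
      mul_nonneg (mul_nonneg (by norm_num) (hs0 _))
        (Finset.sum_nonneg fun l _ => Finset.sum_nonneg fun l' _ => hx l l')
    obtain ⟨E, hE, hE2⟩ := helstrom (hA0 i) (hA0 j)
    have ns := ns_bound (hP i) (hP j) (hP1 i) (hP1 j) hs0 hE (hAl i) (hAl j)
    rw [hE2] at ns
    unfold q
    linarith
  have h4 : ∑ i, ∑ j ∈ Finset.univ.erase i, 2 * q A i j = - (4 * Rval A) := by
    have := sum_q A
    simp only [← Finset.mul_sum]
    rw [this]; ring
  -- step 2
  set Kk := CFC.sqrt (∑ j, A j ^ 2) with hKk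
  have hSS : 0 ≤ ∑ j, A j ^ 2 := Finset.sum_nonneg fun j _ => by
    rw [sq]; exact sq_nonneg' (IsSelfAdjoint.of_nonneg (hA0 j))
  have hK0 : 0 ≤ Kk := CFC.sqrt_nonneg _
  have hKK : Kk * Kk = ∑ j, A j ^ 2 := CFC.sqrt_mul_sqrt_self _ hSS
  have hAK : ∀ i, A i ≤ Kk := by
    intro i
    refine le_of_sq_le (hA0 i) hK0 ?_
    rw [hKK, ← sq]
    exact Finset.single_le_sum (f := fun j => A j ^ 2) (fun j _ => by
      rw [sq]; exact sq_nonneg' (IsSelfAdjoint.of_nonneg (hA0 j))) (Finset.mem_univ i)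
  have h5 : ∑ i, tr (A i * M i) ≤ tr Kk := by
    calc ∑ i, tr (A i * M i) ≤ ∑ i, tr (Kk * M i) :=
          Finset.sum_le_sum fun i _ => tr_mul_mono (hAK i) (hM0 i)
      _ = tr (Kk * ∑ i, M i) := by rw [← tr_sum, ← Finset.mul_sum]
      _ ≤ tr (Kk * 1) := tr_mul_mono' hM1 hK0
      _ = tr Kk := by rw [mul_one]
  have h6 : ∑ i, tr (A i * (1 - M i)) = ∑ i, tr (A i) - ∑ i, tr (A i * M i) := by
    rw [← Finset.sum_sub_distrib]
    refine Finset.sum_congr rfl fun i _ => ?_
    rw [mul_sub, mul_one, tr_sub]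
  have h7 : Lval A = tr Kk - ∑ i, tr (A i) := rfl
  rw [h7]
  linarith

end Pool.Agent.Work.MP_ebd556_mp
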