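import Mathlib

set_option autoImplicit false
set_option linter.unusedSectionVars false

open scoped MatrixOrder ComplexOrder
open Matrix

namespace Pool.Agent.Work.MP_ebd556_mp

variable {m : Type} [Fintype m] [DecidableEq m]

/-- real trace -/
noncomputable def tr (X : Matrix m m ℂ) : ℝ := (Matrix.trace X).re

lemma tr_add (X Y : Matrix m m ℂ) : tr (X + Y) = tr X + tr Y := by simp [tr]
lemma tr_sub (X Y : Matrix m m ℂ) : tr (X - Y) = tr X - tr Y := by simp [tr]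
lemma tr_neg (X : Matrix m m ℂ) : tr (-X) = - tr X := by simp [tr]
lemma tr_zero : tr (0 : Matrix m m ℂ) = 0 := by simp [tr]
lemma tr_smul (c : ℝ) (X : Matrix m m ℂ) : tr (c • X) = c * tr X := by
  simp [tr, Matrix.trace_smul]
lemma tr_sum {ι : Type*} (s : Finset ι) (f : ι → Matrix m m ℂ) :
    tr (∑ i ∈ s, f i) = ∑ i ∈ s, tr (f i) := by
  simp [tr, Matrix.trace_sum]
lemma tr_comm (X Y : Matrix m m ℂ) : tr (X * Y) = tr (Y * X) := by
  simp only [tr]; rw [Matrix.trace_mul_comm]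

lemma tr_nonneg {X : Matrix m m ℂ} (h : 0 ≤ X) : 0 ≤ tr X := by
  have := h.posSemidef.trace_nonneg
  exact (Complex.le_def.1 this).1

lemma tr_mono {X Y : Matrix m m ℂ} (h : X ≤ Y) : tr X ≤ tr Y := by
  have := tr_nonneg (sub_nonneg.2 h)
  rw [tr_sub] at this; linarith

lemma conj_nonneg {X : Matrix m m ℂ} (h : 0 ≤ X) {S : Matrix m m ℂ} (hS : IsSelfAdjoint S) :
    0 ≤ S * X * S := by
  have := star_right_conjugate_nonneg h S
  rwa [hS.star_eq] at this

lemma tr_mul_nonneg {X Y : Matrix m m ℂ} (hX : 0 ≤ X) (hY : 0 ≤ Y) : 0 ≤ tr (X * Y) := by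
  obtain ⟨B, rfl⟩ := CStarAlgebra.nonneg_iff_eq_star_mul_self.mp hY
  rw [← mul_assoc, tr_comm, ← mul_assoc]
  exact tr_nonneg (star_right_conjugate_nonneg hX B)

lemma tr_mul_mono {X Y Z : Matrix m m ℂ} (h : X ≤ Y) (hZ : 0 ≤ Z) : tr (X * Z) ≤ tr (Y * Z) := by
  have := tr_mul_nonneg (sub_nonneg.2 h) hZ
  rw [sub_mul, tr_sub] at this; linarith

lemma tr_mul_mono' {X Y Z : Matrix m m ℂ} (h : X ≤ Y) (hZ : 0 ≤ Z) : tr (Z * X) ≤ tr (Z * Y) := by
  rw [tr_comm Z X, tr_comm Z Y]; exact tr_mul_mono h hZ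

lemma sq_nonneg' {X : Matrix m m ℂ} (h : IsSelfAdjoint X) : 0 ≤ X * X := by
  have := star_mul_self_nonneg X
  rwa [h.star_eq] at this

/-- Hermitian projections -/
structure IsProj (P : Matrix m m ℂ) : Prop where
  sa : IsSelfAdjoint P
  idem : P * P = P

lemma IsProj.nonneg {P : Matrix m m ℂ} (h : IsProj P) : 0 ≤ P := by
  have := sq_nonneg' h.sa
  rwa [h.idem] at this

lemma IsProj.compl {P : Matrix m m ℂ} (h : IsProj P) : IsProj (1 - P) := by
  refine ⟨(IsSelfAdjoint.one _).sub h.sa, ?_⟩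
  have := h.idem
  calc (1 - P) * (1 - P) = 1 - P - P + P * P := by noncomm_ring
    _ = 1 - P := by rw [this]; abel

lemma IsProj.le_one {P : Matrix m m ℂ} (h : IsProj P) : P ≤ 1 :=
  sub_nonneg.1 h.compl.nonneg

lemma isProj_zero : IsProj (0 : Matrix m m ℂ) := ⟨IsSelfAdjoint.zero _, by simp⟩

lemma smul_nonneg' {X : Matrix m m ℂ} (h : 0 ≤ X) {c : ℝ} (hc : 0 ≤ c) : 0 ≤ c • X := by
  have : c • X = (Real.sqrt c • (1 : Matrix m m ℂ)) * X * (Real.sqrt c • (1 : Matrix m m ℂ)) := by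
    simp [smul_smul, Real.mul_self_sqrt hc]
  rw [this]
  refine conj_nonneg h ?_
  rw [IsSelfAdjoint, star_smul]; simp

end Pool.Agent.Work.MP_ebd556_mp
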