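import Pool.Agent.Work.MP_ebd556_mp.Basic

set_option autoImplicit false
set_option linter.unusedSectionVars false

open scoped MatrixOrder ComplexOrder
open Matrix

namespace Pool.Agent.Work.MP_ebd556_mp

variable {m : Type} [Fintype m] [DecidableEq m]

lemma exists_inv {G : Matrix m m ℂ} (hG : 0 ≤ G) :
    ∃ R : Matrix m m ℂ, IsSelfAdjoint R ∧ (1 + G) * R = 1 ∧ R * (1 + G) = 1 := by
  have hpd : (1 + G).PosDef := Matrix.PosDef.one.add_posSemidef hG.posSemidef
  have hu : IsUnit (1 + G) := hpd.isUnit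
  have hdet := (Matrix.isUnit_iff_isUnit_det _).1 hu
  refine ⟨(1 + G)⁻¹, ?_, Matrix.mul_nonsing_inv _ hdet, Matrix.nonsing_inv_mul _ hdet⟩
  exact hpd.inv.isHermitian

lemma conj_eq {R S X Y : Matrix m m ℂ} (h1 : S * R = 1) (h2 : R * S = 1) (h : S * X * S = Y) :
    X = R * Y * R := by
  rw [← h]
  calc X = (R * S) * X * (S * R) := by rw [h1, h2]; simp
    _ = R * (S * X * S) * R := by noncomm_ring

lemma nonneg_of_conj {R S X Y : Matrix m m ℂ} (hR : IsSelfAdjoint R) (h1 : S * R = 1)
    (h2 : R * S = 1) (h : S * X * S = Y) (hY : 0 ≤ Y) : 0 ≤ X := by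
  rw [conj_eq h1 h2 h]
  exact conj_nonneg hY hR

lemma tr_two_mul_le {X Y : Matrix m m ℂ} (hX : IsSelfAdjoint X) (hY : IsSelfAdjoint Y) :
    2 * tr (X * Y) ≤ tr (X * X) + tr (Y * Y) := by
  have h := tr_nonneg (sq_nonneg' (hX.sub hY))
  have e : (X - Y) * (X - Y) = X * X - X * Y - Y * X + Y * Y := by noncomm_ring
  rw [e] at h
  simp only [tr_add, tr_sub] at h
  rw [tr_comm Y X] at h
  linarith

lemma h_bound {G H H' N : Matrix m m ℂ} (hG : 0 ≤ G) (hN : 0 ≤ N) (hH : IsProj H)
    (hH' : IsProj H') (hHG : H * G = G) (hHG' : H' * (G + N) = G + N) {T T' : ℝ}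
    (hT : tr (G * G) - 2 * tr G + tr H ≤ T)
    (hT' : tr ((G + N) * (G + N)) - 2 * tr (G + N) + tr H' ≤ T') (hTT : T ≤ T') :
    tr (N * H) ≤ 2 * tr (N * G) + 4 * T' := by
  obtain ⟨R, hR, hSR, hRS⟩ := exists_inv hG
  have hGsa : IsSelfAdjoint G := IsSelfAdjoint.of_nonneg hG
  have hGH : G * H = G := by
    have := congrArg star hHG
    rwa [star_mul, hGsa.star_eq, hH.sa.star_eq] at this
  have hHH := hH.idem
  set D := G - H with hD
  have hDsa : IsSelfAdjoint D := hGsa.sub hH.sa
  have hDD : D * D = G * G - G - G + H := by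
    rw [hD]
    calc (G - H) * (G - H) = G * G - G * H - H * G + H * H := by noncomm_ring
      _ = _ := by rw [hHG, hGH, hHH]
  have hDD0 : 0 ≤ D * D := sq_nonneg' hDsa
  have htrDD : tr (D * D) ≤ T := by
    rw [hDD]; simp only [tr_add, tr_sub]; linarith
  set w := R * (D * D) * R with hw
  have hw0 : 0 ≤ w := conj_nonneg hDD0 hR
  have hwsa : IsSelfAdjoint w := IsSelfAdjoint.of_nonneg hw0
  have hSw : (1 + G) * w * (1 + G) = D * D := by
    rw [hw]
    calc (1 + G) * (R * (D * D) * R) * (1 + G) = ((1 + G) * R) * (D * D) * (R * (1 + G)) := by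
          noncomm_ring
      _ = D * D := by rw [hSR, hRS]; simp
  have hSsa : IsSelfAdjoint (1 + G) := (IsSelfAdjoint.one _).add hGsa
  -- w ≤ 1
  have hw1 : 0 ≤ 1 - w := by
    refine nonneg_of_conj (Y := (1 - H) + (G + G + G + G)) hR hSR hRS ?_ ?_
    · calc (1 + G) * (1 - w) * (1 + G) = (1 + G) * (1 + G) - (1 + G) * w * (1 + G) := by
            noncomm_ring
        _ = (1 + G) * (1 + G) - (G * G - G - G + H) := by rw [hSw, hDD]
        _ = _ := by noncomm_ring
    · have h1 := hH.compl.nonneg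
      have h2 : 0 ≤ G + G + G + G := by positivity
      exact add_nonneg h1 h2
  have hRR : 0 ≤ 1 - R * R := by
    refine nonneg_of_conj (Y := G + G + G * G) hR hSR hRS ?_ ?_
    · calc (1 + G) * (1 - R * R) * (1 + G)
          = (1 + G) * (1 + G) - ((1 + G) * R) * (R * (1 + G)) := by noncomm_ring
        _ = (1 + G) * (1 + G) - 1 := by rw [hSR, hRS]; simp
        _ = _ := by noncomm_ring
    · exact add_nonneg (add_nonneg hG hG) (sq_nonneg' hGsa)
  have htrw : tr w ≤ T := by
    have h1 : tr w = tr ((R * R) * (D * D)) := by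
      rw [hw, tr_comm, ← mul_assoc]
    have h2 : tr (1 * (D * D)) - tr ((R * R) * (D * D)) ≥ 0 := by
      rw [← tr_sub, ← sub_mul]; exact tr_mul_nonneg hRR hDD0
    rw [one_mul] at h2
    rw [h1]; linarith
  have htrww : tr (w * w) ≤ T := by
    have := tr_mul_nonneg hw0 hw1
    rw [mul_sub, mul_one, tr_sub] at this
    linarith
  -- main operator inequality, multiplied by 5
  have key : 0 ≤ (G + w - H + G + w) + (G + w - H + G + w) + (G + w - H + G + w)
      + (G + w - H + G + w) + (G + w - H + G + w) := by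
    refine nonneg_of_conj (Y := (5 * G - 2 * H) * (5 * G - 2 * H) + H + (10 * (G * G * G)))
      hR hSR hRS ?_ ?_
    · have e1 : (1 + G) * (G + w - H + G + w) * (1 + G)
          = (1 + G) * G * (1 + G) + (1 + G) * G * (1 + G) - (1 + G) * H * (1 + G)
            + (1 + G) * w * (1 + G) + (1 + G) * w * (1 + G) := by noncomm_ring
      have e2 : (1 + G) * H * (1 + G) = H + G + G + G * G := by
        calc (1 + G) * H * (1 + G) = H + G * H + H * G + G * (H * G) := by noncomm_ring
          _ = _ := by rw [hHG, hGH]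
      have e3 : (1 + G) * (G + w - H + G + w) * (1 + G) =
          H - 4 * G + 5 * (G * G) + 2 * (G * G * G) := by
        rw [e1, hSw, e2, hDD]; noncomm_ring
      have e4 : (5 * G - 2 * H) * (5 * G - 2 * H) = 25 * (G * G) - 20 * G + 4 * H := by
        calc (5 * G - 2 * H) * (5 * G - 2 * H)
            = 25 * (G * G) - 10 * (G * H) - 10 * (H * G) + 4 * (H * H) := by noncomm_ring
          _ = _ := by rw [hHG, hGH, hHH]; noncomm_ring
      rw [e4]
      have e5 : (1 + G) * ((G + w - H + G + w) + (G + w - H + G + w) + (G + w - H + G + w)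
          + (G + w - H + G + w) + (G + w - H + G + w)) * (1 + G) =
          5 * ((1 + G) * (G + w - H + G + w) * (1 + G)) := by noncomm_ring
      rw [e5, e3]; noncomm_ring
    · have h1 : IsSelfAdjoint (5 * G - 2 * H) := by
        have a : (5 : Matrix m m ℂ) * G = G + G + G + G + G := by noncomm_ring
        have b : (2 : Matrix m m ℂ) * H = H + H := by noncomm_ring
        rw [a, b]
        exact ((((hGsa.add hGsa).add hGsa).add hGsa).add hGsa).sub (hH.sa.add hH.sa)
      have h2 : 0 ≤ G * G * G := conj_nonneg hG hGsa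
      have h3 : (10 : Matrix m m ℂ) * (G * G * G) = (10 : ℕ) • (G * G * G) := by
        rw [nsmul_eq_mul]; norm_num
      rw [h3]
      exact add_nonneg (add_nonneg (sq_nonneg' h1) hH.nonneg) (nsmul_nonneg h2 10)
  have key2 : 0 ≤ tr (N * (G + w - H + G + w)) := by
    have := tr_mul_nonneg hN key
    simp only [mul_add, tr_add] at this ⊢
    linarith
  have e6 : tr (N * (G + w - H + G + w)) = 2 * tr (N * G) + 2 * tr (N * w) - tr (N * H) := by
    simp only [mul_add, mul_sub, tr_add, tr_sub]; ring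
  -- bound tr (N w)
  set D' := (G + N) - H' with hD'
  have hGNsa : IsSelfAdjoint (G + N) := hGsa.add (IsSelfAdjoint.of_nonneg hN)
  have hD'sa : IsSelfAdjoint D' := hGNsa.sub hH'.sa
  have hGH' : (G + N) * H' = G + N := by
    have := congrArg star hHG'
    rwa [star_mul, hGNsa.star_eq, hH'.sa.star_eq] at this
  have hDD' : tr (D' * D') ≤ T' := by
    have : D' * D' = (G + N) * (G + N) - (G + N) - (G + N) + H' := by
      rw [hD']
      calc ((G + N) - H') * ((G + N) - H')
          = (G + N) * (G + N) - (G + N) * H' - H' * (G + N) + H' * H' := by noncomm_ring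
        _ = _ := by rw [hHG', hGH', hH'.idem]
    rw [this]
    rw [tr_add, tr_sub, tr_sub]; linarith
  have h7 : tr (N * w) ≤ T + tr (D' * w) := by
    have a : tr (N * w) = tr (D' * w) + tr (H' * w) - tr (G * w) := by
      rw [← tr_add, ← tr_sub, ← add_mul, ← sub_mul]
      congr 2
      rw [hD']; abel
    have b := tr_mul_nonneg hG hw0
    have c : tr (H' * w) ≤ tr (1 * w) := tr_mul_mono hH'.le_one hw0
    rw [one_mul] at c
    linarith
  have h8 := tr_two_mul_le hD'sa hwsa
  linarith

lemma proj_quad {P Y : Matrix m m ℂ} (hP : IsProj P) (hY : IsSelfAdjoint Y) :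
    2 * tr (P * Y) - tr P ≤ tr (P * (Y * P * Y)) := by
  have hPYP : IsSelfAdjoint (P * Y * P) := by
    rw [IsSelfAdjoint, star_mul, star_mul, hP.sa.star_eq, hY.star_eq]; noncomm_ring
  have h := tr_nonneg (sq_nonneg' (hPYP.sub hP.sa))
  have hPP := hP.idem
  have e : (P * Y * P - P) * (P * Y * P - P)
      = P * Y * P * Y * P - P * Y * P - P * Y * P + P := by
    calc (P * Y * P - P) * (P * Y * P - P)
        = P * Y * (P * P) * Y * P - P * Y * (P * P) - (P * P) * Y * P + P * P := by noncomm_ring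
      _ = _ := by rw [hPP]
  rw [e] at h
  simp only [tr_add, tr_sub] at h
  have e1 : tr (P * Y * P) = tr (P * Y) := by
    rw [tr_comm, ← mul_assoc, hPP]
  have e2 : tr (P * Y * P * Y * P) = tr (P * (Y * P * Y)) := by
    rw [tr_comm]
    congr 1
    calc P * (P * Y * P * Y) = (P * P) * Y * P * Y := by noncomm_ring
      _ = _ := by rw [hPP]; noncomm_ring
  rw [e1, e2] at h
  linarith

lemma loss_bound {ι : Type} [Fintype ι] {P : ι → Matrix m m ℂ} (hP : ∀ i, IsProj (P i))
    {H H' : Matrix m m ℂ} (hH : IsProj H) (hH' : IsProj H') (hHH : H' * H = H)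
    (hN : H' * (∑ i, P i) = ∑ i, P i) :
    ∃ M : ι → Matrix m m ℂ, (∀ i, 0 ≤ M i) ∧ (∑ i, M i ≤ H' - H) ∧
      (∑ i, tr (P i)) - ∑ i, tr (P i * M i) ≤ 3 * tr ((∑ i, P i) * H) +
        (tr ((∑ i, P i) * (∑ i, P i)) - tr (∑ i, P i)) := by
  set N := ∑ i, P i with hNdef
  have hN0 : 0 ≤ N := Finset.sum_nonneg fun i _ => (hP i).nonneg
  have hNsa : IsSelfAdjoint N := IsSelfAdjoint.of_nonneg hN0
  have hNH' : N * H' = N := by
    have := congrArg star hN
    rwa [star_mul, hNsa.star_eq, hH'.sa.star_eq] at this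
  have hHH' : H * H' = H := by
    have := congrArg star hHH
    rwa [star_mul, hH.sa.star_eq, hH'.sa.star_eq] at this
  set D := H' - H with hD
  have hDp : IsProj D := by
    refine ⟨hH'.sa.sub hH.sa, ?_⟩
    calc D * D = H' * H' - H' * H - H * H' + H * H := by rw [hD]; noncomm_ring
      _ = D := by rw [hH'.idem, hHH, hHH', hH.idem, hD]; abel
  have hDD := hDp.idem
  set B := D * N * D with hB
  have hB0 : 0 ≤ B := conj_nonneg hN0 hDp.sa
  have hBsa : IsSelfAdjoint B := IsSelfAdjoint.of_nonneg hB0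
  have hDB : D * B = B := by
    calc D * B = (D * D) * N * D := by rw [hB]; noncomm_ring
      _ = B := by rw [hDD]
  have hBD : B * D = B := by
    calc B * D = D * N * (D * D) := by rw [hB]; noncomm_ring
      _ = B := by rw [hDD]
  obtain ⟨R, hR, hSR, hRS⟩ := exists_inv hB0
  have hRD : R * D = D * R := by
    calc R * D = R * D * ((1 + B) * R) := by rw [hSR]; simp
      _ = R * (D + D * B) * R := by noncomm_ring
      _ = R * (D + B * D) * R := by rw [hDB, hBD]
      _ = (R * (1 + B)) * D * R := by noncomm_ring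
      _ = D * R := by rw [hRS]; simp
  set Y := (R + R) * D with hY
  have hY2 : Y = D * (R + R) := by
    calc Y = R * D + R * D := by rw [hY]; noncomm_ring
      _ = D * (R + R) := by rw [hRD]; noncomm_ring
  have hYsa : IsSelfAdjoint Y := by
    rw [IsSelfAdjoint, hY, star_mul, star_add, hR.star_eq, hDp.sa.star_eq, ← hY2]
  refine ⟨fun i => Y * P i * Y, fun i => conj_nonneg (hP i).nonneg hYsa, ?_, ?_⟩
  · have e1 : ∑ i, Y * P i * Y = Y * N * Y := by
      rw [hNdef, Finset.mul_sum, Finset.sum_mul]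
    rw [e1]
    refine sub_nonneg.1 ?_
    refine nonneg_of_conj (Y := (D - B) * (D - B)) hR hSR hRS ?_ (sq_nonneg' (hDp.sa.sub hBsa))
    have e2 : (1 + B) * (Y * N * Y) * (1 + B) = 4 * B := by
      calc (1 + B) * (Y * N * Y) * (1 + B)
          = (1 + B) * (((R + R) * D) * N * (D * (R + R))) * (1 + B) := by
            nth_rewrite 2 [hY2]; rw [hY]
        _ = ((1 + B) * R + (1 + B) * R) * (D * N * D) * (R * (1 + B) + R * (1 + B)) := by
            noncomm_ring
        _ = 4 * B := by rw [hSR, hRS, ← hB]; noncomm_ring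
    calc (1 + B) * (D - Y * N * Y) * (1 + B)
        = (1 + B) * D * (1 + B) - (1 + B) * (Y * N * Y) * (1 + B) := by noncomm_ring
      _ = (D + B * D + D * B + B * (D * B)) - 4 * B := by rw [e2]; noncomm_ring
      _ = D - B - B + B * B := by rw [hBD, hDB]; noncomm_ring
      _ = D * D - D * B - B * D + B * B := by rw [hDD, hDB, hBD]
      _ = (D - B) * (D - B) := by noncomm_ring
  · have h1 : 2 * tr (N * Y) - tr N ≤ ∑ i, tr (P i * (Y * P i * Y)) := by
      have : 2 * tr (N * Y) - tr N = ∑ i, (2 * tr (P i * Y) - tr (P i)) := by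
        rw [Finset.sum_sub_distrib, ← Finset.mul_sum, ← tr_sum, ← tr_sum, ← Finset.sum_mul]
      rw [this]
      exact Finset.sum_le_sum fun i _ => proj_quad (hP i) hYsa
    have h2 : tr (N * Y) = 2 * tr (B * R) := by
      have a : tr (N * Y) = tr (N * (R * D)) + tr (N * (R * D)) := by
        rw [← tr_add]; congr 1; rw [hY]; noncomm_ring
      have b : tr (N * (R * D)) = tr (B * R) := by
        calc tr (N * (R * D)) = tr (N * (R * (D * D))) := by rw [hDD]
          _ = tr (N * ((R * D) * D)) := by congr 1; noncomm_ring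
          _ = tr ((N * (D * R)) * D) := by rw [hRD]; congr 1; noncomm_ring
          _ = tr (D * (N * (D * R))) := by rw [tr_comm]
          _ = tr (B * R) := by rw [hB]; congr 1; noncomm_ring
      rw [a, b]; ring
    have h3 : 3 * tr B - tr (B * B) ≤ 4 * tr (B * R) := by
      have hBB : 0 ≤ B + B * B := add_nonneg hB0 (sq_nonneg' hBsa)
      have hx : 0 ≤ (B * R + B * R + B * R + B * R) - (B + B + B) + B * B := by
        refine nonneg_of_conj (Y := (1 - B) * (B + B * B) * (1 - B)) hR hSR hRS ?_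
          (conj_nonneg hBB ((IsSelfAdjoint.one _).sub hBsa))
        calc (1 + B) * ((B * R + B * R + B * R + B * R) - (B + B + B) + B * B) * (1 + B)
            = (1 + B) * B * (R * (1 + B)) + (1 + B) * B * (R * (1 + B))
              + (1 + B) * B * (R * (1 + B)) + (1 + B) * B * (R * (1 + B))
              - (1 + B) * (B + B + B) * (1 + B) + (1 + B) * (B * B) * (1 + B) := by noncomm_ring
          _ = _ := by rw [hRS]; noncomm_ring
      have := tr_nonneg hx
      simp only [tr_add, tr_sub] at this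
      linarith
    have h4 : tr B = tr N - tr (N * H) := by
      calc tr B = tr (N * (D * D)) := by rw [hB, tr_comm, ← mul_assoc, tr_comm, hDD]
        _ = tr (N * H' - N * H) := by rw [hDD, hD]; congr 1; noncomm_ring
        _ = _ := by rw [hNH', tr_sub]
    have h5 : tr (B * B) ≤ tr (N * N) := by
      have hNDN : 0 ≤ N * D * N := conj_nonneg hDp.nonneg hNsa
      have a : tr (B * B) = tr (D * (N * D * N)) := by
        calc tr (B * B) = tr ((D * N * (D * D) * N) * D) := by rw [hB]; congr 1; noncomm_ring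
          _ = tr (D * (D * N * D * N)) := by rw [hDD, tr_comm]
          _ = tr ((D * D) * (N * D * N)) := by congr 1; noncomm_ring
          _ = _ := by rw [hDD]
      have b : tr (D * (N * D * N)) ≤ tr (1 * (N * D * N)) := tr_mul_mono hDp.le_one hNDN
      have c : tr (N * D * N) = tr (D * (N * N)) := by
        rw [mul_assoc, tr_comm, mul_assoc]
      have d : tr (D * (N * N)) ≤ tr (1 * (N * N)) := tr_mul_mono hDp.le_one (sq_nonneg' hNsa)
      rw [one_mul] at b d
      linarith
    rw [← tr_sum]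
    rw [← hNdef]
    linarith

end Pool.Agent.Work.MP_ebd556_mp
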