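import Pool.Agent.Work.MP_ebd556_mp.Multi
import Pool.Agent.Work.MP_ebd556_mp.Defs

set_option autoImplicit false
set_option linter.unusedSectionVars false

open scoped MatrixOrder ComplexOrder
open Matrix Finset

namespace Pool.Agent.Work.MP_ebd556_mp

variable {m : Type} [Fintype m] [DecidableEq m]

lemma fc_sum {X : Matrix m m ℂ} (hX : X.IsHermitian) {α : Type*} (s : Finset α)
    (f : α → ℝ → ℝ) : ∑ a ∈ s, fc hX (f a) = fc hX (fun x => ∑ a ∈ s, f a x) := by
  classical
  induction s using Finset.induction_on with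
  | empty => simp [fc_zero]
  | insert a s ha ih =>
    rw [Finset.sum_insert ha, ih, fc_add]
    congr 1
    ext x
    rw [Finset.sum_insert ha]

/-- operator monotonicity of the square root, in the form needed -/
lemma le_of_sq_le {A K : Matrix m m ℂ} (hA : 0 ≤ A) (hK : 0 ≤ K) (h : A * A ≤ K * K) : A ≤ K := by
  have hXsa : (K - A).IsHermitian := (IsSelfAdjoint.of_nonneg hK).sub (IsSelfAdjoint.of_nonneg hA)
  set X := K - A with hXdef
  have hAX : A = K - X := by rw [hXdef]; abel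
  set f : ℝ → ℝ := fun x => max (-x) 0 with hf
  have hY : 0 ≤ fc hXsa f := fc_nonneg hXsa fun i => le_max_right _ _
  have hY2 : 0 ≤ fc hXsa (fun x => f x * f x) := fc_nonneg hXsa fun i => mul_self_nonneg _
  have e1 : X * fc hXsa f = - fc hXsa (fun x => f x * f x) := by
    have e := fc_mul hXsa (fun x => x) f
    rw [fc_id hXsa] at e
    rw [e, ← sub_eq_zero, sub_neg_eq_add, fc_add, ← fc_zero hXsa]
    congr 1
    ext x
    simp only [hf]
    rcases le_total x 0 with hx | hx
    · rw [max_eq_left (by linarith)]; ring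
    · rw [max_eq_right (by linarith)]; ring
  have e2 : fc hXsa f * X = - fc hXsa (fun x => f x * f x) := by
    have e := fc_mul hXsa f (fun x => x)
    rw [fc_id hXsa] at e
    rw [e, ← sub_eq_zero, sub_neg_eq_add, fc_add, ← fc_zero hXsa]
    congr 1
    ext x
    simp only [hf]
    rcases le_total x 0 with hx | hx
    · rw [max_eq_left (by linarith)]; ring
    · rw [max_eq_right (by linarith)]; ring
  have h1 := tr_mul_nonneg (sub_nonneg.2 h) hY
  have e3 : (K * K - A * A) * fc hXsa f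
      = K * (X * fc hXsa f) + X * K * fc hXsa f - X * (X * fc hXsa f) := by
    rw [hAX]; noncomm_ring
  rw [e3, tr_sub, tr_add, e1] at h1
  have e4 : tr (X * K * fc hXsa f) = tr (K * (fc hXsa f * X)) := by
    rw [mul_assoc, tr_comm, mul_assoc]
  rw [e4, e2] at h1
  have e5 : tr (X * -fc hXsa (fun x => f x * f x))
      = ∑ i, (f (hXsa.eigenvalues i)) ^ 3 := by
    have e := fc_mul hXsa (fun x => x) (fun x => f x * f x)
    rw [fc_id hXsa] at e
    rw [mul_neg, tr_neg, e, fc_tr, ← Finset.sum_neg_distrib]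
    refine Finset.sum_congr rfl fun i _ => ?_
    simp only [hf]
    rcases le_total (hXsa.eigenvalues i) 0 with hx | hx
    · rw [max_eq_left (by linarith)]; ring
    · rw [max_eq_right (by linarith)]; ring
  rw [e5, mul_neg, tr_neg] at h1
  have h2 := tr_mul_nonneg hK hY2
  have h3 : ∑ i, (f (hXsa.eigenvalues i)) ^ 3 ≤ 0 := by linarith
  have h4 : ∀ i, 0 ≤ (f (hXsa.eigenvalues i)) ^ 3 := fun i => pow_nonneg (le_max_right _ _) 3
  have h5 : ∀ i, 0 ≤ hXsa.eigenvalues i := by
    intro i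
    have h6 : (f (hXsa.eigenvalues i)) ^ 3 ≤ 0 :=
      (Finset.single_le_sum (f := fun i => (f (hXsa.eigenvalues i)) ^ 3)
        (fun j _ => h4 j) (Finset.mem_univ i)).trans h3
    by_contra hneg
    push Not at hneg
    have : 0 < f (hXsa.eigenvalues i) := lt_max_of_lt_left (by linarith)
    have := pow_pos this 3
    linarith
  have h6 : 0 ≤ X := by
    rw [← fc_id hXsa]; exact fc_nonneg hXsa h5
  exact sub_nonneg.1 h6

/-- level indicator -/
noncomputable def ind (S : ℝ) (k : ℕ) (x : ℝ) : ℝ :=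
  if S / 2 ^ k ≤ x ∧ x < 2 * (S / 2 ^ k) then 1 else 0

lemma ind_disj {S : ℝ} (hS : 0 < S) {k l : ℕ} {x : ℝ} (hkl : k < l)
    (hk : S / 2 ^ k ≤ x) (hl : x < 2 * (S / 2 ^ l)) : False := by
  obtain ⟨e, rfl⟩ := Nat.exists_eq_add_of_lt hkl
  have : 2 * (S / 2 ^ (k + e + 1)) ≤ S / 2 ^ k := by
    rw [pow_succ, pow_add]
    have h1 : (1:ℝ) ≤ 2 ^ e := one_le_pow₀ (by norm_num)
    have h2 : 2 * (S / (2 ^ k * 2 ^ e * 2)) = (S / 2 ^ k) / 2 ^ e := by field_simp
    rw [h2]
    exact div_le_self (by positivity) h1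
  linarith

lemma ind_mul {S : ℝ} (hS : 0 < S) {k l : ℕ} (hkl : k ≠ l) (x : ℝ) :
    ind S k x * ind S l x = 0 := by
  unfold ind
  by_cases h1 : S / 2 ^ k ≤ x ∧ x < 2 * (S / 2 ^ k)
  · by_cases h2 : S / 2 ^ l ≤ x ∧ x < 2 * (S / 2 ^ l)
    · exfalso
      rcases lt_or_gt_of_ne hkl with h | h
      · exact ind_disj hS h h1.1 h2.2
      · exact ind_disj hS h h2.1 h1.2
    · simp [h2]
  · simp [h1]

lemma ind_sum_cases {S : ℝ} (hS : 0 < S) (K : ℕ) (x : ℝ) (g : ℕ → ℝ) :
    (∑ k ∈ range K, g k * ind S k x = 0 ∧ ∀ k ∈ range K, ind S k x = 0) ∨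
      ∃ k ∈ range K, S / 2 ^ k ≤ x ∧ x < 2 * (S / 2 ^ k) ∧
        ∑ k ∈ range K, g k * ind S k x = g k := by
  by_cases h : ∃ k ∈ range K, S / 2 ^ k ≤ x ∧ x < 2 * (S / 2 ^ k)
  · right
    obtain ⟨k, hk, h1, h2⟩ := h
    have hk1 : ind S k x = 1 := by simp [ind, h1, h2]
    refine ⟨k, hk, h1, h2, ?_⟩
    rw [Finset.sum_eq_single k, hk1, mul_one]
    · intro l _ hlk
      have := ind_mul hS hlk x
      rw [hk1, mul_one] at this
      rw [this, mul_zero]
    · intro h; exact absurd hk h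
  · left
    push Not at h
    have h0 : ∀ k ∈ range K, ind S k x = 0 := by
      intro k hk
      unfold ind
      rw [if_neg]
      rintro ⟨h1, h2⟩
      exact absurd h2 (not_lt.2 (h k hk h1))
    exact ⟨Finset.sum_eq_zero fun k hk => by rw [h0 k hk, mul_zero], h0⟩

lemma ind_sum_le_one {S : ℝ} (hS : 0 < S) (K : ℕ) (x : ℝ) : ∑ k ∈ range K, ind S k x ≤ 1 := by
  have := ind_sum_cases hS K x (fun _ => 1)
  simp only [one_mul] at this
  rcases this with h | ⟨k, _, _, _, h⟩
  · rw [h.1]; norm_num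
  · rw [h]

lemma ind_sum_le {S : ℝ} (hS : 0 < S) (K : ℕ) {x : ℝ} (hx : 0 ≤ x) :
    ∑ k ∈ range K, S / 2 ^ k * ind S k x ≤ x := by
  rcases ind_sum_cases hS K x (fun k => S / 2 ^ k) with h | ⟨k, _, h1, _, h⟩
  · rw [h.1]; exact hx
  · rw [h]; exact h1

lemma le_ind_sum {S : ℝ} (hS : 0 < S) (K : ℕ) {x : ℝ} (hx : 0 ≤ x) (hx2 : x < 2 * S)
    (hK : 0 < x → S / 2 ^ K ≤ x) :
    x ≤ 2 * ∑ k ∈ range (K + 1), S / 2 ^ k * ind S k x := by
  rcases hx.eq_or_lt with rfl | hpos
  · refine mul_nonneg (by norm_num) (Finset.sum_nonneg fun k _ => mul_nonneg (by positivity) ?_)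
    unfold ind; split_ifs <;> norm_num
  · rcases ind_sum_cases hS (K + 1) x (fun k => S / 2 ^ k) with h | ⟨k, _, _, h2, h⟩
    · exfalso
      have hex : ∃ k, S / 2 ^ k ≤ x := ⟨K, hK hpos⟩
      classical
      set k := Nat.find hex with hk
      have hk1 : S / 2 ^ k ≤ x := Nat.find_spec hex
      have hkK : k ≤ K := Nat.find_min' hex (hK hpos)
      have hk2 : x < 2 * (S / 2 ^ k) := by
        rcases Nat.eq_zero_or_pos k with h0 | h0
        · rw [h0]; simpa using hx2
        · have := Nat.find_min hex (m := k - 1) (by omega)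
          push Not at this
          have e : S / 2 ^ (k - 1) = 2 * (S / 2 ^ k) := by
            obtain ⟨j, hj⟩ : ∃ j, k = j + 1 := ⟨k - 1, by omega⟩
            rw [hj, Nat.add_sub_cancel, pow_succ]; field_simp
          rwa [e] at this
      have := h.2 k (Finset.mem_range.2 (by omega))
      unfold ind at this
      rw [if_pos ⟨hk1, hk2⟩] at this
      norm_num at this
    · rw [h]; linarith

/-- Helstrom type identity -/
lemma helstrom {d : ℕ} {A B : Matrix (Fin d) (Fin d) ℂ} (hA : 0 ≤ A) (hB : 0 ≤ B) :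
    ∃ E : Matrix (Fin d) (Fin d) ℂ, IsProj E ∧
      2 * (tr (A * (1 - E)) + tr (B * E)) = tr A + tr B - trNorm (A - B) := by
  have hX : (A - B).IsHermitian := (IsSelfAdjoint.of_nonneg hA).sub (IsSelfAdjoint.of_nonneg hB)
  set X := A - B with hXdef
  refine ⟨fc hX (fun x => if 0 < x then 1 else 0),
    proj_fc hX _ fun x => by by_cases h : 0 < x <;> simp [h], ?_⟩
  set E := fc hX (fun x => if 0 < x then 1 else 0) with hE
  have h1 : CFC.sqrt (Xᴴ * X) = fc hX (fun x => |x|) := by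
    have hnn : 0 ≤ fc hX (fun x => |x|) := fc_nonneg hX fun i => abs_nonneg _
    refine CFC.sqrt_unique ?_ hnn
    rw [fc_mul, hX.eq]
    conv_rhs => rw [← fc_id hX]
    rw [fc_mul]
    congr 1
    ext x
    exact abs_mul_abs_self x
  have h2 : trNorm X = tr (fc hX (fun x => |x|)) := by
    unfold trNorm tr; rw [h1]
  have h3 : tr (fc hX (fun x => |x|)) = 2 * tr (X * E) - tr X := by
    have e := fc_mul hX (fun x => x) (fun x => if 0 < x then 1 else 0)
    rw [fc_id hX, ← hE] at e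
    have e2 : tr X = ∑ i, hX.eigenvalues i := by
      conv_lhs => rw [← fc_id hX]
      rw [fc_tr]
    rw [e, e2, fc_tr, fc_tr, Finset.mul_sum, ← Finset.sum_sub_distrib]
    refine Finset.sum_congr rfl fun i _ => ?_
    by_cases h : 0 < hX.eigenvalues i
    · simp only [h, if_true, mul_one]; rw [abs_of_pos h]; ring
    · simp only [h, if_false, mul_zero]; rw [abs_of_nonpos (not_lt.1 h)]; ring
  rw [h2, h3, hXdef]
  simp only [sub_mul, mul_sub, mul_one, tr_sub]
  ring

end Pool.Agent.Work.MP_ebd556_mp
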