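import Pool.Agent.Work.MP_ebd556_mp.Basic

set_option autoImplicit false
set_option linter.unusedSectionVars false

open scoped MatrixOrder ComplexOrder
open Matrix

namespace Pool.Agent.Work.MP_ebd556_mp

variable {m : Type} [Fintype m] [DecidableEq m]

/-- functional calculus of a Hermitian matrix -/
noncomputable def fc {X : Matrix m m ℂ} (hX : X.IsHermitian) (f : ℝ → ℝ) : Matrix m m ℂ :=
  hX.cfc f

lemma fc_def {X : Matrix m m ℂ} (hX : X.IsHermitian) (f : ℝ → ℝ) :
    fc hX f = Unitary.conjStarAlgAut ℂ _ hX.eigenvectorUnitary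
      (diagonal (RCLike.ofReal ∘ f ∘ hX.eigenvalues)) := rfl

lemma fc_mul {X : Matrix m m ℂ} (hX : X.IsHermitian) (f g : ℝ → ℝ) :
    fc hX f * fc hX g = fc hX (fun x => f x * g x) := by
  rw [fc_def, fc_def, fc_def, ← map_mul, diagonal_mul_diagonal]
  congr 2
  ext i
  simp

lemma fc_add {X : Matrix m m ℂ} (hX : X.IsHermitian) (f g : ℝ → ℝ) :
    fc hX f + fc hX g = fc hX (fun x => f x + g x) := by
  rw [fc_def, fc_def, fc_def, ← map_add, diagonal_add]
  congr 2
  ext i
  simp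

lemma fc_sub {X : Matrix m m ℂ} (hX : X.IsHermitian) (f g : ℝ → ℝ) :
    fc hX f - fc hX g = fc hX (fun x => f x - g x) := by
  rw [fc_def, fc_def, fc_def, ← map_sub, diagonal_sub]
  congr 2
  ext i
  simp

lemma fc_star {X : Matrix m m ℂ} (hX : X.IsHermitian) (f : ℝ → ℝ) :
    IsSelfAdjoint (fc hX f) := by
  rw [IsSelfAdjoint, fc_def, ← map_star, star_eq_conjTranspose, diagonal_conjTranspose]
  congr 2
  ext i
  simp

lemma fc_one {X : Matrix m m ℂ} (hX : X.IsHermitian) : fc hX (fun _ => 1) = 1 := by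
  rw [fc_def]
  have : (diagonal (RCLike.ofReal ∘ (fun _ => (1:ℝ)) ∘ hX.eigenvalues) : Matrix m m ℂ) = 1 := by
    rw [← diagonal_one]; congr 1
  rw [this, map_one]

lemma fc_zero {X : Matrix m m ℂ} (hX : X.IsHermitian) : fc hX (fun _ => 0) = 0 := by
  rw [fc_def]
  have : (diagonal (RCLike.ofReal ∘ (fun _ => (0:ℝ)) ∘ hX.eigenvalues) : Matrix m m ℂ) = 0 := by
    rw [← diagonal_zero]; congr 1
  rw [this, map_zero]

lemma fc_id {X : Matrix m m ℂ} (hX : X.IsHermitian) : fc hX (fun x => x) = X := by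
  conv_rhs => rw [hX.spectral_theorem]
  rfl

lemma fc_congr {X : Matrix m m ℂ} (hX : X.IsHermitian) {f g : ℝ → ℝ}
    (h : ∀ i, f (hX.eigenvalues i) = g (hX.eigenvalues i)) : fc hX f = fc hX g := by
  rw [fc_def, fc_def]
  congr 2
  ext i
  simp [h i]

lemma fc_tr {X : Matrix m m ℂ} (hX : X.IsHermitian) (f : ℝ → ℝ) :
    tr (fc hX f) = ∑ i, f (hX.eigenvalues i) := by
  rw [fc_def, tr, Unitary.conjStarAlgAut_apply, Matrix.trace_mul_comm, ← mul_assoc]
  simp [Matrix.trace_diagonal]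

lemma fc_nonneg {X : Matrix m m ℂ} (hX : X.IsHermitian) {f : ℝ → ℝ}
    (h : ∀ i, 0 ≤ f (hX.eigenvalues i)) : 0 ≤ fc hX f := by
  have e : fc hX f = fc hX (fun x => Real.sqrt (f x)) * fc hX (fun x => Real.sqrt (f x)) := by
    rw [fc_mul]
    exact fc_congr hX fun i => (Real.mul_self_sqrt (h i)).symm
  rw [e]
  exact sq_nonneg' (fc_star hX _)

lemma fc_le {X : Matrix m m ℂ} (hX : X.IsHermitian) {f g : ℝ → ℝ}
    (h : ∀ i, f (hX.eigenvalues i) ≤ g (hX.eigenvalues i)) : fc hX f ≤ fc hX g := by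
  refine sub_nonneg.1 ?_
  rw [fc_sub]
  exact fc_nonneg hX fun i => sub_nonneg.2 (h i)

lemma fc_smul {X : Matrix m m ℂ} (hX : X.IsHermitian) (c : ℝ) (f : ℝ → ℝ) :
    c • fc hX f = fc hX (fun x => c * f x) := by
  have h : (c • fc hX f : Matrix m m ℂ) = (c : ℂ) • fc hX f := by
    ext i j; simp
  rw [h, fc_def, fc_def, ← map_smul]
  congr 1
  ext i j
  by_cases hij : i = j
  · subst hij; simp
  · simp [hij]

lemma proj_fc {X : Matrix m m ℂ} (hX : X.IsHermitian) (f : ℝ → ℝ)
    (h : ∀ x, f x = 0 ∨ f x = 1) : IsProj (fc hX f) := by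
  refine ⟨fc_star hX f, ?_⟩
  rw [fc_mul]
  congr 1
  ext x
  rcases h x with h | h <;> simp [h]

lemma fc_inj {X : Matrix m m ℂ} (hX : X.IsHermitian) {f g : ℝ → ℝ} (h : fc hX f = fc hX g)
    (i : m) : f (hX.eigenvalues i) = g (hX.eigenvalues i) := by
  rw [fc_def, fc_def] at h
  have h1 := (Unitary.conjStarAlgAut ℂ _ hX.eigenvectorUnitary).injective h
  have h2 := congr_fun (diagonal_injective h1) i
  simpa using h2

lemma rank_eq_tr {P : Matrix m m ℂ} (hP : IsProj P) : (P.rank : ℝ) = tr P := by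
  have hH : P.IsHermitian := hP.sa
  have h1 : ∀ i, hH.eigenvalues i = 0 ∨ hH.eigenvalues i = 1 := by
    intro i
    have h2 : fc hH (fun x => x * x) = fc hH (fun x => x) := by
      rw [← fc_mul, fc_id, hP.idem]
    have h3 := fc_inj hH h2 i
    have h4 : hH.eigenvalues i * (hH.eigenvalues i - 1) = 0 := by linarith
    rcases mul_eq_zero.1 h4 with h | h
    · exact Or.inl h
    · exact Or.inr (by linarith)
  have h3 : tr P = ∑ i, hH.eigenvalues i := by
    conv_lhs => rw [← fc_id hH]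
    rw [fc_tr]
  rw [h3, hH.rank_eq_card_non_zero_eigs, Fintype.card_subtype]
  rw [Finset.card_filter]
  push_cast
  refine Finset.sum_congr rfl fun i _ => ?_
  rcases h1 i with h | h <;> simp [h]

lemma exists_sup {H P : Matrix m m ℂ} (hH : IsProj H) (hP : IsProj P) :
    ∃ H' : Matrix m m ℂ, IsProj H' ∧ H' * H = H ∧ H' * P = P ∧ tr H' ≤ tr H + tr P := by
  have hX0 : 0 ≤ (1 - H) * P * (1 - H) := conj_nonneg hP.nonneg hH.compl.sa
  set X := (1 - H) * P * (1 - H) with hXdef
  have hX : X.IsHermitian := IsSelfAdjoint.of_nonneg hX0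
  set E := fc hX (fun x => if x = 0 then 0 else 1) with hE
  have hEp : IsProj E := proj_fc hX _ fun x => by by_cases h : x = 0 <;> simp [h]
  have hEX : E * X = X := by
    have e := fc_mul hX (fun x => if x = 0 then 0 else 1) (fun x => x)
    rw [fc_id hX] at e
    rw [hE, e]
    conv_rhs => rw [← fc_id hX]
    congr 1
    ext x
    by_cases h : x = 0 <;> simp [h]
  have hEg : E = fc hX (fun x => x⁻¹) * X := by
    have e := fc_mul hX (fun x => x⁻¹) (fun x => x)
    rw [fc_id hX] at e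
    rw [e, hE]
    congr 1
    ext x
    by_cases h : x = 0 <;> simp [h]
  have hXH : X * H = 0 := by
    calc X * H = (1 - H) * P * (H - H * H) := by rw [hXdef]; noncomm_ring
      _ = 0 := by rw [hH.idem]; simp
  have hEH : E * H = 0 := by rw [hEg, mul_assoc, hXH, mul_zero]
  have hHE : H * E = 0 := by
    have := congrArg star hEH
    rwa [star_mul, hH.sa.star_eq, hEp.sa.star_eq, star_zero] at this
  have hE1 : (1 - E) * ((1 - H) * P) = 0 := by
    have h1 : ((1 - E) * ((1 - H) * P)) * ((1 - E) * ((1 - H) * P))ᴴ = 0 := by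
      rw [← star_eq_conjTranspose, star_mul, star_mul, hP.sa.star_eq, hH.compl.sa.star_eq,
        hEp.compl.sa.star_eq]
      calc (1 - E) * ((1 - H) * P) * (P * (1 - H) * (1 - E))
          = (1 - E) * ((1 - H) * (P * P) * (1 - H)) * (1 - E) := by noncomm_ring
        _ = (X - E * X) * (1 - E) := by rw [hP.idem, ← hXdef]; noncomm_ring
        _ = 0 := by rw [hEX]; simp
    exact Matrix.self_mul_conjTranspose_eq_zero.1 h1
  refine ⟨H + E, ⟨hH.sa.add hEp.sa, ?_⟩, ?_, ?_, ?_⟩
  · calc (H + E) * (H + E) = H * H + H * E + E * H + E * E := by noncomm_ring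
      _ = H + E := by rw [hH.idem, hHE, hEH, hEp.idem]; simp
  · rw [add_mul, hH.idem, hEH, add_zero]
  · have : (1 - E) * ((1 - H) * P) = P - (H + E) * P + E * H * P := by noncomm_ring
    rw [this, hEH, zero_mul, add_zero] at hE1
    exact (sub_eq_zero.1 hE1).symm
  · rw [tr_add]
    have h1 : tr E = (X.rank : ℝ) := by
      rw [hE, fc_tr, hX.rank_eq_card_non_zero_eigs, Fintype.card_subtype, Finset.card_filter]
      push_cast
      refine Finset.sum_congr rfl fun i _ => ?_
      by_cases h : hX.eigenvalues i = 0 <;> simp [h]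
    have h2 : X.rank ≤ P.rank :=
      (Matrix.rank_mul_le_left _ _).trans (Matrix.rank_mul_le_right _ _)
    have h3 : (X.rank : ℝ) ≤ (P.rank : ℝ) := by exact_mod_cast h2
    rw [rank_eq_tr hP] at h3
    linarith

end Pool.Agent.Work.MP_ebd556_mp
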