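import Pool.Agent.Work.MP_ebd556_mp.Level
import Pool.Agent.Work.MP_ebd556_mp.Spec

set_option autoImplicit false
set_option linter.unusedSectionVars false

open scoped MatrixOrder ComplexOrder
open Matrix Finset

namespace Pool.Agent.Work.MP_ebd556_mp

variable {m : Type} [Fintype m] [DecidableEq m] {ι : Type} [Fintype ι] [DecidableEq ι]

lemma exists_sup_fam {H : Matrix m m ℂ} (hH : IsProj H) {P : ι → Matrix m m ℂ}
    (hP : ∀ i, IsProj (P i)) (s : Finset ι) :
    ∃ H' : Matrix m m ℂ, IsProj H' ∧ H' * H = H ∧ (∀ i ∈ s, H' * P i = P i) ∧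
      tr H' ≤ tr H + ∑ i ∈ s, tr (P i) := by
  induction s using Finset.induction_on with
  | empty => exact ⟨H, hH, hH.idem, by simp, by simp⟩
  | insert a s ha ih =>
    obtain ⟨H', h1, h2, h3, h4⟩ := ih
    obtain ⟨H'', g1, g2, g3, g4⟩ := exists_sup h1 (hP a)
    refine ⟨H'', g1, ?_, ?_, ?_⟩
    · rw [← h2, ← mul_assoc, g2]
    · intro i hi
      rcases Finset.mem_insert.1 hi with rfl | hi
      · exact g3
      · rw [← h3 i hi, ← mul_assoc, g2]
    · rw [Finset.sum_insert ha]; linarith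

lemma exists_seq {P : ι → ℕ → Matrix m m ℂ} (hP : ∀ i k, IsProj (P i k)) :
    ∃ H : ℕ → Matrix m m ℂ, H 0 = 0 ∧ (∀ k, IsProj (H k)) ∧ (∀ k, H (k + 1) * H k = H k) ∧
      (∀ k i, H (k + 1) * P i k = P i k) ∧
      (∀ k, tr (H (k + 1)) ≤ tr (H k) + ∑ i, tr (P i k)) := by
  have step : ∀ (k : ℕ) (H : {H : Matrix m m ℂ // IsProj H}),
      ∃ H' : {H : Matrix m m ℂ // IsProj H}, H'.1 * H.1 = H.1 ∧ (∀ i, H'.1 * P i k = P i k) ∧
        tr H'.1 ≤ tr H.1 + ∑ i, tr (P i k) := by
    intro k H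
    obtain ⟨H', h1, h2, h3, h4⟩ := exists_sup_fam H.2 (fun i => hP i k) Finset.univ
    exact ⟨⟨H', h1⟩, h2, fun i => h3 i (Finset.mem_univ i), h4⟩
  choose F hF1 hF2 hF3 using step
  let Hs : ℕ → {H : Matrix m m ℂ // IsProj H} := fun n => Nat.rec ⟨0, isProj_zero⟩ F n
  exact ⟨fun k => (Hs k).1, rfl, fun k => (Hs k).2, fun k => hF1 k (Hs k),
    fun k i => hF2 k (Hs k) i, fun k => hF3 k (Hs k)⟩

theorem multi {P : ι → ℕ → Matrix m m ℂ} (hP : ∀ i k, IsProj (P i k)) {s : ℕ → ℝ}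
    (hs : ∀ k, 0 ≤ s k) (K : ℕ) :
    ∃ M : ι → Matrix m m ℂ, (∀ i, 0 ≤ M i) ∧ ∑ i, M i ≤ 1 ∧
      ∑ i, ∑ k ∈ range K, s k * (tr (P i k) - tr (P i k * M i)) ≤
        15 * ∑ k ∈ range K, s k *
          (tr ((∑ l ∈ range (k + 1), ∑ i, P i l) * (∑ l ∈ range (k + 1), ∑ i, P i l))
            - tr (∑ l ∈ range (k + 1), ∑ i, P i l)) := by
  obtain ⟨H, hH0, hHp, hHH, hHP, hHt⟩ := exists_seq hP
  set N : ℕ → Matrix m m ℂ := fun k => ∑ i, P i k with hN
  set G : ℕ → Matrix m m ℂ := fun k => ∑ l ∈ range k, N l with hG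
  set T : ℕ → ℝ := fun k => tr (G k * G k) - tr (G k) with hT
  have hN0 : ∀ k, 0 ≤ N k := fun k => Finset.sum_nonneg fun i _ => (hP i k).nonneg
  have hG0 : ∀ k, 0 ≤ G k := fun k => Finset.sum_nonneg fun l _ => hN0 l
  have hGs : ∀ k, G (k + 1) = G k + N k := fun k => Finset.sum_range_succ _ _
  have hHN : ∀ k, H (k + 1) * N k = N k := by
    intro k
    simp only [hN, Finset.mul_sum]
    exact Finset.sum_congr rfl fun i _ => hHP k i
  have hHG : ∀ k, H k * G k = G k := by
    intro k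
    induction k with
    | zero => simp [hG]
    | succ k ih =>
      rw [hGs, mul_add, hHN]
      congr 1
      rw [← ih, ← mul_assoc, hHH]
  have htr : ∀ k, tr (H k) ≤ tr (G k) := by
    intro k
    induction k with
    | zero => simp [hG, hH0]
    | succ k ih =>
      rw [hGs, tr_add]
      have := hHt k
      have e : tr (N k) = ∑ i, tr (P i k) := tr_sum _ _
      rw [e]; linarith
  have hNN : ∀ k, 0 ≤ tr (N k * N k) - tr (N k) := by
    intro k
    have e1 : tr (N k * N k) = ∑ i, ∑ j, tr (P i k * P j k) := by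
      simp only [hN, Finset.sum_mul, Finset.mul_sum, tr_sum]
      rw [Finset.sum_comm]
    have e2 : tr (N k) = ∑ i, tr (P i k * P i k) := by
      simp only [hN, tr_sum]
      exact Finset.sum_congr rfl fun i _ => by rw [(hP i k).idem]
    rw [e1, e2, ← Finset.sum_sub_distrib]
    refine Finset.sum_nonneg fun i _ => sub_nonneg.2 ?_
    exact Finset.single_le_sum (f := fun j => tr (P i k * P j k))
      (fun j _ => tr_mul_nonneg (hP i k).nonneg (hP j k).nonneg) (Finset.mem_univ i)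
  have hTs : ∀ k, T (k + 1) = T k + 2 * tr (N k * G k) + (tr (N k * N k) - tr (N k)) := by
    intro k
    simp only [hT]
    rw [hGs]
    have : (G k + N k) * (G k + N k) = G k * G k + G k * N k + N k * G k + N k * N k := by
      noncomm_ring
    rw [this]
    simp only [tr_add]
    rw [tr_comm (G k) (N k)]
    ring
  have hNG : ∀ k, 0 ≤ tr (N k * G k) := fun k => tr_mul_nonneg (hN0 k) (hG0 k)
  have hTm : ∀ k, T k ≤ T (k + 1) := by
    intro k; rw [hTs]; have := hNN k; have := hNG k; linarith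
  have hT0 : ∀ k, 0 ≤ T k := by
    intro k
    induction k with
    | zero => simp [hT, hG, tr_zero]
    | succ k ih => exact ih.trans (hTm k)
  have hh : ∀ k, tr (N k * H k) ≤ 2 * tr (N k * G k) + 4 * T (k + 1) := by
    intro k
    refine h_bound (H' := H (k + 1)) (T := T k) (hG0 k) (hN0 k) (hHp k) (hHp (k + 1)) (hHG k)
      ?_ ?_ ?_ (hTm k)
    · rw [← hGs]; exact hHG (k + 1)
    · have := htr k
      simp only [hT]; linarith
    · rw [← hGs]
      have := htr (k + 1)
      simp only [hT]; linarith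
  have hM : ∀ k, ∃ M : ι → Matrix m m ℂ, (∀ i, 0 ≤ M i) ∧ (∑ i, M i ≤ H (k + 1) - H k) ∧
      (∑ i, tr (P i k)) - ∑ i, tr (P i k * M i) ≤ 15 * T (k + 1) := by
    intro k
    obtain ⟨M, h1, h2, h3⟩ := loss_bound (fun i => hP i k) (hHp k) (hHp (k + 1)) (hHH k) (hHN k)
    refine ⟨M, h1, h2, h3.trans ?_⟩
    have a := hh k
    have b := hTs k
    have c := hNN k
    have d := hNG k
    have e := hT0 k
    simp only [hN] at a b c d ⊢
    linarith
  choose M hM1 hM2 hM3 using hM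
  refine ⟨fun i => ∑ k ∈ range K, M k i, fun i => Finset.sum_nonneg fun k _ => hM1 k i, ?_, ?_⟩
  · rw [Finset.sum_comm]
    calc ∑ k ∈ range K, ∑ i, M k i ≤ ∑ k ∈ range K, (H (k + 1) - H k) :=
          Finset.sum_le_sum fun k _ => hM2 k
      _ = H K - H 0 := Finset.sum_range_sub _ _
      _ = H K := by rw [hH0, sub_zero]
      _ ≤ 1 := (hHp K).le_one
  · rw [Finset.sum_comm, Finset.mul_sum]
    refine Finset.sum_le_sum fun k hk => ?_
    rw [← Finset.mul_sum]
    have h1 : ∑ i, (tr (P i k) - tr (P i k * ∑ k ∈ range K, M k i)) ≤ 15 * T (k + 1) := by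
      refine le_trans ?_ (hM3 k)
      rw [← Finset.sum_sub_distrib]
      refine Finset.sum_le_sum fun i _ => sub_le_sub_left ?_ _
      refine tr_mul_mono' ?_ (hP i k).nonneg
      exact Finset.single_le_sum (f := fun k => M k i) (fun k _ => hM1 k i) hk
    have h2 := mul_le_mul_of_nonneg_left h1 (hs k)
    refine h2.trans (le_of_eq ?_)
    simp only [hT, hG]
    ring

/-- geometric summation -/
lemma geom_sum_bound {x : ℕ → ℕ → ℝ} (hx : ∀ l l', 0 ≤ x l l') {S : ℝ} (hS : 0 ≤ S) (K : ℕ) :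
    ∑ k ∈ range K, S / 2 ^ k * (∑ l ∈ range (k + 1), ∑ l' ∈ range (k + 1), x l l')
      + 2 * (S / 2 ^ K) * (∑ l ∈ range K, ∑ l' ∈ range K, x l l')
      = 2 * ∑ l ∈ range K, ∑ l' ∈ range K, min (S / 2 ^ l) (S / 2 ^ l') * x l l' := by
  induction K with
  | zero => simp
  | succ K ih =>
    have hmin : ∀ l ∈ range K, min (S / 2 ^ l) (S / 2 ^ K) = S / 2 ^ K := by
      intro l hl
      refine min_eq_right ?_
      have : (2:ℝ) ^ l ≤ 2 ^ K := pow_le_pow_right₀ (by norm_num) (Finset.mem_range.1 hl).le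
      exact div_le_div_of_nonneg_left hS (by positivity) this
    have hmin' : ∀ l ∈ range K, min (S / 2 ^ K) (S / 2 ^ l) = S / 2 ^ K := by
      intro l hl; rw [min_comm]; exact hmin l hl
    have e0 : ∀ f : ℕ → ℕ → ℝ, ∑ l ∈ range (K + 1), ∑ l' ∈ range (K + 1), f l l'
        = (∑ l ∈ range K, ∑ l' ∈ range K, f l l') + (∑ l ∈ range K, f l K)
          + (∑ l' ∈ range K, f K l') + f K K := by
      intro f
      rw [Finset.sum_range_succ]
      simp only [Finset.sum_range_succ _ K, Finset.sum_add_distrib]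
      ring
    rw [Finset.sum_range_succ, e0, e0 (fun l l' => min (S / 2 ^ l) (S / 2 ^ l') * x l l')]
    have e1 : ∑ l ∈ range K, min (S / 2 ^ l) (S / 2 ^ K) * x l K
        = S / 2 ^ K * ∑ l ∈ range K, x l K := by
      rw [Finset.mul_sum]
      exact Finset.sum_congr rfl fun l hl => by rw [hmin l hl]
    have e2 : ∑ l ∈ range K, min (S / 2 ^ K) (S / 2 ^ l) * x K l
        = S / 2 ^ K * ∑ l ∈ range K, x K l := by
      rw [Finset.mul_sum]
      exact Finset.sum_congr rfl fun l hl => by rw [hmin' l hl]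
    rw [e1, e2, min_self]
    have e3 : S / 2 ^ (K + 1) = (S / 2 ^ K) / 2 := by rw [pow_succ]; field_simp
    rw [e3]
    linear_combination ih

lemma T_pairs {P : ι → ℕ → Matrix m m ℂ} (hP : ∀ i k, IsProj (P i k))
    (horth : ∀ i k l, k ≠ l → P i k * P i l = 0) (k : ℕ) :
    tr ((∑ l ∈ range k, ∑ i, P i l) * (∑ l ∈ range k, ∑ i, P i l))
      - tr (∑ l ∈ range k, ∑ i, P i l)
      = ∑ i, ∑ j ∈ Finset.univ.erase i, ∑ l ∈ range k, ∑ l' ∈ range k, tr (P i l * P j l') := by
  set Q : ι → Matrix m m ℂ := fun i => ∑ l ∈ range k, P i l with hQ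
  have e0 : ∑ l ∈ range k, ∑ i, P i l = ∑ i, Q i := Finset.sum_comm
  have e1 : tr ((∑ i, Q i) * (∑ i, Q i)) = ∑ i, ∑ j, tr (Q i * Q j) := by
    simp only [Finset.sum_mul, Finset.mul_sum, tr_sum]
    rw [Finset.sum_comm]
  have e2 : ∀ i, Q i * Q i = Q i := by
    intro i
    simp only [hQ, Finset.sum_mul, Finset.mul_sum]
    refine Finset.sum_congr rfl fun l hl => ?_
    rw [Finset.sum_eq_single l, (hP i l).idem]
    · intro l' _ hne; exact horth i l' l hne
    · intro h; exact absurd hl h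
  have e3 : tr (∑ i, Q i) = ∑ i, tr (Q i * Q i) := by
    rw [tr_sum]
    exact Finset.sum_congr rfl fun i _ => by rw [e2]
  rw [e0, e1, e3, ← Finset.sum_sub_distrib]
  refine Finset.sum_congr rfl fun i _ => ?_
  rw [← Finset.add_sum_erase _ _ (Finset.mem_univ i), add_sub_cancel_left]
  refine Finset.sum_congr rfl fun j _ => ?_
  simp only [hQ, Finset.sum_mul, Finset.mul_sum, tr_sum]
  rw [Finset.sum_comm]

lemma proj_pair {P R E : Matrix m m ℂ} (hP : IsProj P) (hR : IsProj R) (hE : IsProj E) :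
    tr (P * R) ≤ 2 * (tr (((1 - E) * P * (1 - E)) * R) + tr ((E * R * E) * P)) := by
  set Z₁ := P * (1 - E) * R with hZ1
  set Z₂ := P * E * R with hZ2
  have h : 0 ≤ (Z₁ - Z₂) * star (Z₁ - Z₂) := mul_star_self_nonneg _
  have h' := tr_nonneg h
  have e : (Z₁ - Z₂) * star (Z₁ - Z₂) + (Z₁ + Z₂) * star (Z₁ + Z₂)
      = 2 * (Z₁ * star Z₁) + 2 * (Z₂ * star Z₂) := by
    rw [star_sub, star_add]; noncomm_ring
  have e' := congrArg tr e
  have two : ∀ X : Matrix m m ℂ, tr (2 * X) = 2 * tr X := by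
    intro X; rw [two_mul, tr_add]; ring
  rw [tr_add, tr_add, two, two] at e'
  have e1 : tr ((Z₁ + Z₂) * star (Z₁ + Z₂)) = tr (P * R) := by
    have : Z₁ + Z₂ = P * R := by rw [hZ1, hZ2]; noncomm_ring
    rw [this, star_mul, hP.sa.star_eq, hR.sa.star_eq]
    calc tr (P * R * (R * P)) = tr ((P * (R * R)) * P) := by congr 1; noncomm_ring
      _ = tr ((P * P) * R) := by rw [hR.idem, tr_comm, mul_assoc]
      _ = _ := by rw [hP.idem]
  have e2 : tr (Z₁ * star Z₁) = tr (((1 - E) * P * (1 - E)) * R) := by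
    rw [hZ1, star_mul, star_mul, hP.sa.star_eq, hR.sa.star_eq, hE.compl.sa.star_eq]
    calc tr (P * (1 - E) * R * (R * ((1 - E) * P)))
        = tr ((P * (1 - E) * (R * R) * (1 - E)) * P) := by congr 1; noncomm_ring
      _ = tr (((P * P) * (1 - E)) * (R * (1 - E))) := by
          rw [hR.idem, tr_comm]; congr 1; noncomm_ring
      _ = tr ((P * (1 - E) * R) * (1 - E)) := by rw [hP.idem]; congr 1; noncomm_ring
      _ = _ := by rw [tr_comm]; congr 1; noncomm_ring
  have e3 : tr (Z₂ * star Z₂) = tr ((E * R * E) * P) := by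
    rw [hZ2, star_mul, star_mul, hP.sa.star_eq, hR.sa.star_eq, hE.sa.star_eq]
    calc tr (P * E * R * (R * (E * P)))
        = tr ((P * E * (R * R) * E) * P) := by congr 1; noncomm_ring
      _ = tr (P * (P * E * R * E)) := by rw [hR.idem, tr_comm]
      _ = tr ((P * P) * (E * R * E)) := by congr 1; noncomm_ring
      _ = _ := by rw [hP.idem, tr_comm]
  rw [e1, e2, e3] at e'
  linarith

lemma ns_bound {P R : ℕ → Matrix m m ℂ} (hP : ∀ k, IsProj (P k)) (hR : ∀ k, IsProj (R k))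
    {K : ℕ} (hP1 : ∑ k ∈ range K, P k ≤ 1) (hR1 : ∑ k ∈ range K, R k ≤ 1) {s : ℕ → ℝ}
    (hs : ∀ k, 0 ≤ s k) {A B E : Matrix m m ℂ} (hE : IsProj E)
    (hA : ∑ k ∈ range K, s k • P k ≤ A) (hB : ∑ k ∈ range K, s k • R k ≤ B) :
    ∑ l ∈ range K, ∑ l' ∈ range K, min (s l) (s l') * tr (P l * R l') ≤
      2 * (tr (A * (1 - E)) + tr (B * E)) := by
  have hterm : ∀ l l', min (s l) (s l') * tr (P l * R l') ≤
      2 * (s l * tr (((1 - E) * P l * (1 - E)) * R l') + s l' * tr ((E * R l' * E) * P l)) := by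
    intro l l'
    have h1 := proj_pair (hP l) (hR l') hE
    have hu : 0 ≤ tr (((1 - E) * P l * (1 - E)) * R l') :=
      tr_mul_nonneg (conj_nonneg (hP l).nonneg hE.compl.sa) (hR l').nonneg
    have hv : 0 ≤ tr ((E * R l' * E) * P l) :=
      tr_mul_nonneg (conj_nonneg (hR l').nonneg hE.sa) (hP l).nonneg
    have hm : 0 ≤ min (s l) (s l') := le_min (hs l) (hs l')
    have h2 := mul_le_mul_of_nonneg_left h1 hm
    have h3 := mul_le_mul_of_nonneg_right (min_le_left (s l) (s l')) hu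
    have h4 := mul_le_mul_of_nonneg_right (min_le_right (s l) (s l')) hv
    nlinarith
  have hsum : ∑ l ∈ range K, ∑ l' ∈ range K, min (s l) (s l') * tr (P l * R l') ≤
      2 * (∑ l ∈ range K, s l * tr (((1 - E) * P l * (1 - E)) * ∑ l' ∈ range K, R l')
        + ∑ l' ∈ range K, s l' * tr ((E * R l' * E) * ∑ l ∈ range K, P l)) := by
    refine (Finset.sum_le_sum fun l _ => Finset.sum_le_sum fun l' _ => hterm l l').trans
      (le_of_eq ?_)
    simp only [← Finset.mul_sum, Finset.sum_add_distrib]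
    congr 2
    · refine Finset.sum_congr rfl fun l _ => ?_
      rw [← tr_sum, ← Finset.mul_sum]
    · rw [Finset.sum_comm]
      refine Finset.sum_congr rfl fun l _ => ?_
      rw [← Finset.mul_sum, ← tr_sum, ← Finset.mul_sum]
  refine hsum.trans ?_
  have h1 : ∑ l ∈ range K, s l * tr (((1 - E) * P l * (1 - E)) * ∑ l' ∈ range K, R l')
      ≤ tr (A * (1 - E)) := by
    calc ∑ l ∈ range K, s l * tr (((1 - E) * P l * (1 - E)) * ∑ l' ∈ range K, R l')
        ≤ ∑ l ∈ range K, s l * tr (P l * (1 - E)) := by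
          refine Finset.sum_le_sum fun l _ => mul_le_mul_of_nonneg_left ?_ (hs l)
          have a := tr_mul_mono' hR1 (conj_nonneg (hP l).nonneg hE.compl.sa)
          rw [mul_one] at a
          refine a.trans (le_of_eq ?_)
          rw [tr_comm, ← mul_assoc, hE.compl.idem, tr_comm]
      _ = tr ((∑ k ∈ range K, s k • P k) * (1 - E)) := by
          rw [Finset.sum_mul, tr_sum]
          refine Finset.sum_congr rfl fun l _ => ?_
          rw [smul_mul_assoc, tr_smul]
      _ ≤ _ := tr_mul_mono hA hE.compl.nonneg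
  have h2 : ∑ l' ∈ range K, s l' * tr ((E * R l' * E) * ∑ l ∈ range K, P l)
      ≤ tr (B * E) := by
    calc ∑ l' ∈ range K, s l' * tr ((E * R l' * E) * ∑ l ∈ range K, P l)
        ≤ ∑ l ∈ range K, s l * tr (R l * E) := by
          refine Finset.sum_le_sum fun l _ => mul_le_mul_of_nonneg_left ?_ (hs l)
          have a := tr_mul_mono' hP1 (conj_nonneg (hR l).nonneg hE.sa)
          rw [mul_one] at a
          refine a.trans (le_of_eq ?_)
          rw [tr_comm, ← mul_assoc, hE.idem, tr_comm]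
      _ = tr ((∑ k ∈ range K, s k • R k) * E) := by
          rw [Finset.sum_mul, tr_sum]
          refine Finset.sum_congr rfl fun l _ => ?_
          rw [smul_mul_assoc, tr_smul]
      _ ≤ _ := tr_mul_mono hB hE.nonneg
  linarith

end Pool.Agent.Work.MP_ebd556_mp
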